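import Pool.Agent.Q136.LR.Fin
import Pool.Agent.Q29.LRSet

/-!
# `Γ` at commensurable arguments: no relations besides the standard ones, up to few exceptions

By the conjecture of Lang and Rohrlich all algebraic relations between `π` and the values of `Γ` at
rational numbers follow from the translation, reflection and multiplication formulas. We consider the
numbers `Γ(c_i z + x_i)` at the rational points `z`, where the `c_i` are nonzero rational numbers of
either sign and the `x_i` are complex, together with all the derivatives `ψ^(k)` of the logarithmic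
derivative `ψ = Γ'/Γ` at the same points (these numbers generate the field of the `Γ^(k)(c_i z + x_i)`)
and with exponentials `exp(l_j z)`, for instance the numbers `2^z`, `3^z`, `5^z`, … which occur in the
multiplication formula. The formulas for `Γ` relate the functions `Γ(c_i z + x_i)` through the
indicator functions of the sets `{y : c_i y ∈ x_i + ℤ}`: for instance `Γ(z)`, `Γ(z + 1/2)`, `Γ(2 z)` give
`1_ℤ`, `1_{1/2 + ℤ}`, `1_{ℤ/2}`, and `Γ(z)`, `Γ(1 - z)` give the same function. We assume that these indicator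
functions are linearly independent.

(1) Then the functions `Γ(c_i z + x_i)`, `ψ^(k)(c_i z + x_i)`, `exp(l_j z)` are algebraically independent
over `ℂ(z)`.

(2) For almost all rational numbers `z = q` (and for almost all `n`-tuples of them) the values at `q`
satisfy no polynomial relation of bounded degree and polynomially bounded height, not even approximately
and relative to arbitrary constants.

(3) In particular, for every large `q` and almost all numerators `a`, `1 ≤ a < q/2`, `(a, q) = 1`, the numbers `π`,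
`Γ(a/q)`, `Γ(2a/q)`, …, `Γ(ka/q)` satisfy no relation of bounded degree with coefficients in a number field of
bounded degree, of height at most a power of `q`; we write `Γ(1 + ia/q) = (ia/q) Γ(ia/q)`.
-/

set_option autoImplicit false

open NumberField Filter Topology

namespace Pool.Agent.Results.MP_274814_nt.CommensurableArguments

/-- The values at `z`: `ψ^(k)(c_i z + x_i)`, `k < s`, where `ψ = Γ'/Γ` (index `inl (i, k)`),
`Γ(c_i z + x_i)` (index `inr (inl i)`) and `exp(l_j z)` (index `inr (inr j)`). -/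
noncomputable def value {r u : ℕ} (s : ℕ) (c : Fin r → ℚ) (x : Fin r → ℂ) (l : Fin u → ℂ) :
    (Fin r × Fin s) ⊕ (Fin r ⊕ Fin u) → ℂ → ℂ
  | Sum.inl p, z => iteratedDeriv (p.2 : ℕ) Complex.digamma (c p.1 * z + x p.1)
  | Sum.inr (Sum.inl i), z => Complex.Gamma (c i * z + x i)
  | Sum.inr (Sum.inr j), z => Complex.exp (l j * z)

open Classical in
/-- The indicator functions of the sets `{y : c_i y ∈ x_i + ℤ}` are linearly independent over `ℚ`. -/
def Independent {r : ℕ} (c : Fin r → ℚ) (x : Fin r → ℂ) : Prop :=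
  ∀ m : Fin r → ℚ, (∀ y : ℂ, ∑ i, m i * (if ∃ n : ℤ, (c i : ℂ) * y = x i + n then 1 else 0) = 0) → m = 0

/-- The `n`-tuples `q` of elements of the set `X` of rational numbers for which there is a polynomial `P` of
degree at most `d` in each variable, with coefficients of the form `∑ ξ_i ι(c_i)`, where the `c_i` are
integers of the number field `F` all of whose conjugates have absolute value at most `T ^ A`, such that the
value of `P` at the numbers `value s c x l y (q j)` is at most `T ^ (-R)` times the absolute value of some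
nonzero coefficient of `P`. -/
def Exceptional {r u : ℕ} (s : ℕ) (c : Fin r → ℚ) (x : Fin r → ℂ) (l : Fin u → ℂ) (n d : ℕ) {g : ℕ}
    (F : Type) [Field F] [NumberField F] (ι : F →+* ℂ) (ξ : Fin g → ℂ) (X : Finset ℚ) (A R T : ℝ) :
    Set (Fin n → ℚ) :=
  {q | (∀ j, q j ∈ X) ∧ ∃ P : MvPolynomial (Fin n × ((Fin r × Fin s) ⊕ (Fin r ⊕ Fin u))) ℂ,
    (∀ y, P.degreeOf y ≤ d) ∧
    (∀ m, ∃ a : Fin g → 𝓞 F, (∀ i (φ : F →+* ℂ), ‖φ (a i)‖ ≤ T ^ A) ∧ P.coeff m = ∑ i, ξ i * ι (a i)) ∧
    ∃ m₀, P.coeff m₀ ≠ 0 ∧ ‖MvPolynomial.aeval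
      (fun y : Fin n × ((Fin r × Fin s) ⊕ (Fin r ⊕ Fin u)) => value s c x l y.2 (((q y.1 : ℚ) : ℝ) : ℂ)) P‖ ≤
        T ^ (-R) * ‖P.coeff m₀‖}

/-- the integers `a`, `1 ≤ a < q / 2`, prime to `q` -/
def numerators (q : ℕ) : Finset ℕ := (Finset.range q).filter fun a => 1 ≤ a ∧ 2 * a < q ∧ a.Coprime q

/-- The `n`-tuples of elements `a_j` of `numerators q` for which `π` and the `n k` numbers
`Γ(1 + i a_j / q) = (i a_j / q) Γ(i a_j / q)`, `1 ≤ i ≤ k`, satisfy a nontrivial relation of degree at most `d` in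
each of them with coefficients in the ring of integers of `F`, all of whose conjugates have absolute value at
most `q ^ A`; the polynomial `P` is regarded as a polynomial in `n k` variables over `𝓞 F [X]`, `X = π`. -/
def Related (n k d q : ℕ) (F : Type) [Field F] [NumberField F] (ι : F →+* ℂ) (A : ℝ) : Set (Fin n → ℕ) :=
  {a | (∀ j, a j ∈ numerators q) ∧ ∃ P : MvPolynomial (Fin n × Fin k) (Polynomial (𝓞 F)), P ≠ 0 ∧
    (∀ y, P.degreeOf y ≤ d) ∧ (∀ s, (P.coeff s).natDegree ≤ d) ∧
    (∀ s i (φ : F →+* ℂ), ‖φ ((P.coeff s).coeff i)‖ ≤ (q : ℝ) ^ A) ∧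
    MvPolynomial.eval₂ (Polynomial.eval₂RingHom (ι.comp (algebraMap (𝓞 F) F)) (Real.pi : ℂ))
      (fun y => Complex.Gamma (1 + ((y.2 : ℕ) + 1) * ((a y.1 : ℂ) / q))) P = 0}

/-- The functions for the multiples `i z`, `1 ≤ i ≤ k`, are independent. -/
theorem indep_multiples (k : ℕ) : Independent (fun i : Fin k => ((i : ℕ) + 1 : ℚ)) (fun _ => 1) := by
  classical
  intro m hm
  by_contra hne
  have h1 : (Finset.univ.filter fun i : Fin k => m i ≠ 0).Nonempty := by
    by_contra h0
    rw [Finset.not_nonempty_iff_eq_empty, Finset.filter_eq_empty_iff] at h0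
    exact hne (funext fun i => not_not.1 (h0 (Finset.mem_univ i)))
  obtain ⟨i0, hi0, hmax⟩ := Finset.exists_max_image _ (fun i : Fin k => (i : ℕ)) h1
  rw [Finset.mem_filter] at hi0
  have h2 := hm (1 / ((i0 : ℕ) + 1 : ℂ))
  have hpos : ((i0 : ℕ) : ℂ) + 1 ≠ 0 := Nat.cast_add_one_ne_zero _
  rw [Finset.sum_eq_single i0] at h2
  · rw [if_pos ⟨0, by push_cast; field_simp; ring⟩, mul_one] at h2
    exact hi0.2 h2
  · intro i _ hi
    by_cases hmi : m i = 0
    · rw [hmi, zero_mul]
    have hle := hmax i (Finset.mem_filter.2 ⟨Finset.mem_univ _, hmi⟩)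
    have hlt : (i : ℕ) < (i0 : ℕ) := lt_of_le_of_ne hle fun h => hi (Fin.ext h)
    rw [if_neg, mul_zero]
    rintro ⟨n, hn⟩
    have h3 : ((i : ℕ) + 1 : ℤ) = (1 + n) * ((i0 : ℕ) + 1) := by
      have h4 : (((i : ℕ) : ℂ) + 1) = (1 + n) * (((i0 : ℕ) : ℂ) + 1) := by
        push_cast at hn
        field_simp at hn
        linear_combination hn
      exact_mod_cast h4
    have h5 : 0 < (1 + n) := by
      by_contra h6
      have h7 : (1 + n) * ((i0 : ℕ) + 1 : ℤ) ≤ 0 := mul_nonpos_of_nonpos_of_nonneg (by omega) (by omega)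
      omega
    have h8 : ((i0 : ℕ) + 1 : ℤ) ≤ (1 + n) * ((i0 : ℕ) + 1) := by nlinarith
    omega
  · intro h
    exact absurd (Finset.mem_univ _) h

/-- **Gamma values at commensurable arguments.** (1) Let `c_i` be nonzero rational and `x_i` complex
numbers with linearly independent indicator functions of the sets `{y : c_i y ∈ x_i + ℤ}`, and `l_j` complex
numbers no nontrivial integral combination of which is in `2 π i ℚ`. The functions `Γ(c_i z + x_i)`,
`ψ^(k)(c_i z + x_i)`, `exp(l_j z)` and `z` are algebraically independent: no nonzero polynomial in them vanishes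
near a point at which they are defined. (2) If moreover `c_i t + x_i ∉ {0, -1, -2, …}` for `t ∈ [α, β]`, then for
all `n`, `g`, `d`, `h`, `A` and `ε > 0` there are `R`, `C`, `T₀` such that for every number field `F` of degree at
most `h`, every embedding of `F` in `ℂ`, all complex `ξ_1, …, ξ_g`, all `T ≥ T₀` and every finite set `X` of rational
numbers of `[α, β]` with denominators at most `T` there are at most `C T^ε |X|^(n - 1)` exceptional `n`-tuples.
(3) For all `n`, `k`, `d`, `h`, `A` and `ε > 0` there are `C`, `q₀` such that for `q ≥ q₀` and every number field `F` of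
degree at most `h` there are at most `C q^ε φ(q)^(n - 1)` related `n`-tuples. -/
theorem result :
    (∀ (r u s : ℕ) (c : Fin r → ℚ) (x : Fin r → ℂ) (l : Fin u → ℂ), (∀ i, c i ≠ 0) → Independent c x →
      (∀ (m : Fin u → ℤ) (k : ℚ), ∑ j, m j * l j = 2 * Real.pi * Complex.I * k → m = 0) →
      (∀ P : MvPolynomial (Option ((Fin r × Fin s) ⊕ (Fin r ⊕ Fin u))) ℂ, P ≠ 0 →
        ∀ z₀ : ℂ, (∀ i (m : ℕ), (c i : ℂ) * z₀ + x i ≠ -m) →
          ¬ ∀ᶠ z in 𝓝 z₀, MvPolynomial.eval (fun o : Option ((Fin r × Fin s) ⊕ (Fin r ⊕ Fin u)) =>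
            o.elim z fun y => value s c x l y z) P = 0) ∧
      ∀ α β : ℝ, (∀ t : ℝ, α ≤ t → t ≤ β → ∀ i (m : ℕ), (c i : ℂ) * t + x i ≠ -m) →
        ∀ (n g d h : ℕ) (A ε : ℝ), 0 < ε →
        ∃ R C T₀ : ℝ, ∀ (F : Type) [Field F] [NumberField F], Module.finrank ℚ F ≤ h → ∀ (ι : F →+* ℂ)
          (ξ : Fin g → ℂ) (T : ℝ), T₀ ≤ T → ∀ X : Finset ℚ,
          (∀ q ∈ X, α ≤ (q : ℝ) ∧ (q : ℝ) ≤ β ∧ (q.den : ℝ) ≤ T) →
            ((Exceptional s c x l n d F ι ξ X A R T).ncard : ℝ) ≤ C * T ^ ε * (X.card : ℝ) ^ (n - 1)) ∧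
    ∀ (n k d h : ℕ) (A ε : ℝ), 0 < ε → ∃ C : ℝ, ∃ q₀ : ℕ, ∀ q : ℕ, q₀ ≤ q →
      ∀ (F : Type) [Field F] [NumberField F], Module.finrank ℚ F ≤ h → ∀ ι : F →+* ℂ,
        ((Related n k d q F ι A).ncard : ℝ) ≤ C * (q : ℝ) ^ ε * (q.totient : ℝ) ^ (n - 1) := by
  classical
  have hval : ∀ {r u : ℕ} (s : ℕ) (c : Fin r → ℚ) (x : Fin r → ℂ) (l : Fin u → ℂ),
      value s c x l = Pool.Agent.Q136.LR.fn s (fun i => (c i : ℂ)) x l := by
    intro r u s c x l
    funext y z
    rcases y with p | i | j <;> rfl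
  have main : ∀ (r u s : ℕ) (c : Fin r → ℚ) (x : Fin r → ℂ) (l : Fin u → ℂ), (∀ i, c i ≠ 0) →
      Independent c x → (∀ (m : Fin u → ℤ) (k : ℚ), ∑ j, m j * l j = 2 * Real.pi * Complex.I * k → m = 0) →
      ∀ t0 : ℂ, (∀ i (m : ℕ), (c i : ℂ) * t0 + x i ≠ -m) →
        Pool.Agent.Y124.LocInd (value s c x l) t0 := by
    intro r u s c x l hc hind hl t0 ht0
    rw [hval]
    refine Pool.Agent.Q136.LR.loc s c hc x l hl ?_ t0 ht0
    intro m hm
    exact hind m fun y => hm y
  have part2 : ∀ (r u s : ℕ) (c : Fin r → ℚ) (x : Fin r → ℂ) (l : Fin u → ℂ), (∀ i, c i ≠ 0) →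
      Independent c x → (∀ (m : Fin u → ℤ) (k : ℚ), ∑ j, m j * l j = 2 * Real.pi * Complex.I * k → m = 0) →
      ∀ α β : ℝ, (∀ t : ℝ, α ≤ t → t ≤ β → ∀ i (m : ℕ), (c i : ℂ) * t + x i ≠ -m) →
        ∀ (n g d h : ℕ) (A ε : ℝ), 0 < ε →
        ∃ R C T₀ : ℝ, 0 ≤ C ∧ ∀ (F : Type) [Field F] [NumberField F], Module.finrank ℚ F ≤ h → ∀ (ι : F →+* ℂ)
          (ξ : Fin g → ℂ) (T : ℝ), T₀ ≤ T → ∀ X : Finset ℚ,
          (∀ q ∈ X, α ≤ (q : ℝ) ∧ (q : ℝ) ≤ β ∧ (q.den : ℝ) ≤ T) →
            ((Exceptional s c x l n d F ι ξ X A R T).ncard : ℝ) ≤ C * T ^ ε * (X.card : ℝ) ^ (n - 1) := by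
    intro r u s c x l hc hind hl α β hab n g d h A ε hε
    refine Pool.Agent.Q136.LR.rat_any h n g d (value s c x l) α β ?_ ?_ A ε hε
    · rintro y _ ⟨t, ht, rfl⟩
      rw [hval]
      exact Pool.Agent.Q136.LR.fn_an _ _ _ y fun i m => hab t ht.1 ht.2 i m
    · rintro _ ⟨t, ht, rfl⟩
      exact main r u s c x l hc hind hl _ fun i m => hab t ht.1 ht.2 i m
  refine ⟨fun r u s c x l hc hind hl => ⟨fun P hP z₀ hz₀ h => hP (main r u s c x l hc hind hl z₀ hz₀ P h), ?_⟩, ?_⟩
  · intro α β hab n g d h A ε hε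
    obtain ⟨R, C, T₀, -, H⟩ := part2 r u s c x l hc hind hl α β hab n g d h A ε hε
    exact ⟨R, C, T₀, H⟩
  · intro n k d h A ε hε
    obtain ⟨R, C, T₀, hC, H⟩ := part2 k 0 0 (fun i => ((i : ℕ) + 1 : ℚ)) (fun _ => 1) (fun _ => 0)
      (fun i => by positivity) (indep_multiples k) (fun m _ _ => Subsingleton.elim _ _) 0 (1 / 2) (by
        intro t ht _ i m h0
        have h1 := congrArg Complex.re h0
        have h2 : (((((i : ℕ) + 1 : ℚ)) : ℂ) * (t : ℂ) + 1).re = ((i : ℕ) + 1) * t + 1 := by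
          have : ((((i : ℕ) + 1 : ℚ)) : ℂ) * (t : ℂ) + 1 = (((((i : ℕ) + 1) * t + 1 : ℝ)) : ℂ) := by push_cast; ring
          rw [this, Complex.ofReal_re]
        rw [h2] at h1
        simp only [Complex.neg_re, Complex.natCast_re] at h1
        have h3 : 0 ≤ ((i : ℕ) + 1 : ℝ) * t := by positivity
        have h4 : (0 : ℝ) ≤ m := Nat.cast_nonneg m
        linarith) n (d + 1) d h A ε hε
    refine ⟨C, max 1 (Nat.ceil T₀), fun q hq F _ _ hF ι => ?_⟩
    have hq1 : 1 ≤ q := (le_max_left _ _).trans hq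
    have hq0 : (0 : ℝ) < q := by exact_mod_cast hq1
    have hqT : T₀ ≤ (q : ℝ) := (Nat.le_ceil _).trans (by exact_mod_cast (le_max_right _ _).trans hq)
    set X : Finset ℚ := Finset.image (fun a : ℕ => (a : ℚ) / q) (numerators q) with hX
    have hXc : (X.card : ℝ) ≤ q.totient := by
      have h1 : X.card ≤ (numerators q).card := Finset.card_image_le
      have h2 : (numerators q).card ≤ q.totient := Pool.Agent.Q29.LR.card_Num q
      exact_mod_cast h1.trans h2
    have h1 := H F hF ι (fun i : Fin (d + 1) => (Real.pi : ℂ) ^ (i : ℕ)) q hqT X (by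
      intro y hy
      rw [hX, Finset.mem_image] at hy
      obtain ⟨a, ha, rfl⟩ := hy
      rw [numerators, Finset.mem_filter] at ha
      obtain ⟨-, ha1, ha2, -⟩ := ha
      have ha2' : (2 : ℝ) * a < q := by exact_mod_cast ha2
      refine ⟨?_, ?_, ?_⟩
      · push_cast
        positivity
      · push_cast
        rw [div_le_div_iff₀ hq0 (by norm_num)]
        linarith
      · have h3 : (((a : ℚ) / q).den : ℤ) ∣ (q : ℤ) := by
          have := Rat.den_dvd (a : ℤ) (q : ℤ)
          simpa [Rat.divInt_eq_div] using this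
        exact_mod_cast Nat.le_of_dvd (by omega) (Int.natCast_dvd_natCast.1 h3))
    have hinj : Function.Injective (fun (a : Fin n → ℕ) (j : Fin n) => ((a j : ℚ) / q)) := by
      intro a b hab
      funext j
      have h2 := congrFun hab j
      have hq0' : (q : ℚ) ≠ 0 := by exact_mod_cast hq0.ne'
      simp only [div_left_inj' hq0'] at h2
      exact_mod_cast h2
    have hfin : (Exceptional 0 (fun i : Fin k => ((i : ℕ) + 1 : ℚ)) (fun _ => 1) (fun _ : Fin 0 => 0) n d F ι
        (fun i : Fin (d + 1) => (Real.pi : ℂ) ^ (i : ℕ)) X A R q).Finite := by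
      refine (Finset.finite_toSet (Fintype.piFinset fun _ : Fin n => X)).subset ?_
      rintro y ⟨hy, -⟩
      rw [Finset.mem_coe, Fintype.mem_piFinset]
      exact hy
    have hsub : (fun (a : Fin n → ℕ) (j : Fin n) => ((a j : ℚ) / q)) '' (Related n k d q F ι A) ⊆
        Exceptional 0 (fun i : Fin k => ((i : ℕ) + 1 : ℚ)) (fun _ => 1) (fun _ : Fin 0 => 0) n d F ι
        (fun i : Fin (d + 1) => (Real.pi : ℂ) ^ (i : ℕ)) X A R q := by
      rintro _ ⟨a, ⟨ha, P, hP0, hPd, hPn, hPc, hP⟩, rfl⟩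
      refine ⟨fun j => Finset.mem_image_of_mem (fun a : ℕ => (a : ℚ) / q) (ha j), ?_⟩
      set φ₀ := Polynomial.eval₂RingHom (ι.comp (algebraMap (𝓞 F) F)) (Real.pi : ℂ) with hφ₀
      have hcoe : ∀ s, (P.map φ₀).coeff s = ∑ i : Fin (d + 1),
          (Real.pi : ℂ) ^ (i : ℕ) * ι (((P.coeff s).coeff (i : ℕ) : 𝓞 F) : F) := by
        intro s
        rw [MvPolynomial.coeff_map, hφ₀, Polynomial.coe_eval₂RingHom, Polynomial.eval₂_eq_sum_range'
          (ι.comp (algebraMap (𝓞 F) F)) (Nat.lt_succ_of_le (hPn s)), Finset.sum_range]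
        refine Finset.sum_congr rfl fun i _ => ?_
        rw [mul_comm]
        rfl
      obtain ⟨s₀, hs₀⟩ := MvPolynomial.ne_zero_iff.1 hP0
      -- the variables
      let e : Fin n × Fin k → Fin n × ((Fin k × Fin 0) ⊕ (Fin k ⊕ Fin 0)) := fun y => (y.1, Sum.inr (Sum.inl y.2))
      have he : Function.Injective e := by
        rintro ⟨a, b⟩ ⟨a', b'⟩ h
        simp only [e, Prod.mk.injEq, Sum.inr.injEq, Sum.inl.injEq] at h
        rw [h.1, h.2]
      have hcr : ∀ t, (MvPolynomial.rename e (P.map φ₀)).coeff t ≠ 0 →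
          ∃ s, s.mapDomain e = t ∧ (P.map φ₀).coeff s ≠ 0 := fun t ht => MvPolynomial.coeff_rename_ne_zero e _ t ht
      refine ⟨MvPolynomial.rename e (P.map φ₀), fun y => ?_, fun t => ?_, s₀.mapDomain e, ?_, ?_⟩
      · refine MvPolynomial.degreeOf_le_iff.2 fun t ht => ?_
        obtain ⟨s, rfl, hs⟩ := hcr t (MvPolynomial.mem_support_iff.1 ht)
        by_cases hy : y ∈ Set.range e
        · obtain ⟨y', rfl⟩ := hy
          rw [Finsupp.mapDomain_apply he]
          refine (MvPolynomial.degreeOf_le_iff.1 (hPd y')) s ?_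
          exact MvPolynomial.support_map_subset φ₀ P (MvPolynomial.mem_support_iff.2 hs)
        · rw [Finsupp.mapDomain_of_notMem_range _ _ hy]
          exact Nat.zero_le _
      · by_cases ht : (MvPolynomial.rename e (P.map φ₀)).coeff t = 0
        · refine ⟨fun _ => 0, fun i φ => ?_, ?_⟩
          · simp only [map_zero, norm_zero]
            positivity
          · rw [ht]
            simp
        · obtain ⟨s, rfl, hs⟩ := hcr t ht
          refine ⟨fun i => (P.coeff s).coeff (i : ℕ), fun i φ => hPc s _ φ, ?_⟩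
          rw [MvPolynomial.coeff_rename_mapDomain e he]
          exact hcoe s
      · rw [MvPolynomial.coeff_rename_mapDomain e he, MvPolynomial.coeff_map]
        exact Pool.Agent.Q29.LR.pi_ne ι _ hs₀
      · have h1 : MvPolynomial.aeval
            (fun y : Fin n × ((Fin k × Fin 0) ⊕ (Fin k ⊕ Fin 0)) =>
              value 0 (fun i : Fin k => ((i : ℕ) + 1 : ℚ)) (fun _ => 1) (fun _ : Fin 0 => 0) y.2
                (((((a y.1 : ℚ) / q : ℚ)) : ℝ) : ℂ)) (MvPolynomial.rename e (P.map φ₀)) = 0 := by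
          rw [MvPolynomial.aeval_rename, MvPolynomial.aeval_def, MvPolynomial.eval₂_map, ← hP]
          congr 1
          funext y
          simp only [Function.comp_apply, e, value]
          congr 1
          push_cast
          ring
        rw [h1, norm_zero]
        positivity
    rw [← Set.ncard_image_of_injective _ hinj]
    have h2 : ((((fun (a : Fin n → ℕ) (j : Fin n) => ((a j : ℚ) / q)) '' (Related n k d q F ι A)).ncard : ℕ) : ℝ) ≤
        ((Exceptional 0 (fun i : Fin k => ((i : ℕ) + 1 : ℚ)) (fun _ => 1) (fun _ : Fin 0 => 0) n d F ι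
        (fun i : Fin (d + 1) => (Real.pi : ℂ) ^ (i : ℕ)) X A R q).ncard : ℝ) := by
      exact_mod_cast Set.ncard_le_ncard hsub hfin
    refine h2.trans (h1.trans ?_)
    gcongr

end Pool.Agent.Results.MP_274814_nt.CommensurableArguments
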