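import Mathlib
import Pool.Agent.Q29.LRSet

/-!
# Large sets of values of `Γ` with one denominator without relations

For every large `q` there are about `φ(q)^(1/n)` numbers among the `Γ(a/q)`, `(a, q) = 1`, of which no
`n + 1` satisfy, together with `π`, a polynomial relation of bounded degree with coefficients of height
at most a fixed power of `q`.
-/

set_option autoImplicit false

namespace Pool.Agent.Results.MP_274814_nt.LargeFreeSets

open MvPolynomial NumberField

/-- Let `n ≥ 1`, `d`, `l`, `A` and `ε > 0` be given. For all large `q` and every number field `F` of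
degree at most `l`, embedded in `ℂ`, there is a set `S` of integers `a`, `1 ≤ a < q/2`, `(a, q) = 1`,
with `φ(q) ≤ C q^ε (|S| + 1)^n` and the following property. Let `P` be a nonzero polynomial in the
variables `Y_a`, `a ∈ S`, over `𝓞 F [X]`, in which at most `n + 1` of the variables `Y_a` occur, of degree at
most `d` in `X` and in each variable, such that the conjugates of its coefficients have absolute value
at most `q ^ A`. Then the value of `P` at `X = π`, `Y_a = Γ(a/q)` is not zero. -/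
theorem result (n d l : ℕ) (hn : 1 ≤ n) (A ε : ℝ) (hε : 0 < ε) :
    ∃ C : ℝ, ∃ q₀ : ℕ, ∀ q : ℕ, q₀ ≤ q → ∀ (F : Type) [Field F] [NumberField F],
      Module.finrank ℚ F ≤ l → ∀ ι : F →+* ℂ, ∃ S : Finset ℕ,
        (∀ a ∈ S, 1 ≤ a ∧ 2 * a < q ∧ a.Coprime q) ∧
        (q.totient : ℝ) ≤ C * (q : ℝ) ^ ε * ((S.card : ℝ) + 1) ^ n ∧
        ∀ P : MvPolynomial ℕ (Polynomial (𝓞 F)), P ≠ 0 → P.vars ⊆ S → P.vars.card ≤ n + 1 →
          (∀ j, P.degreeOf j ≤ d) → (∀ s, (P.coeff s).natDegree ≤ d) →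
          (∀ s i (φ : F →+* ℂ), ‖φ ((P.coeff s).coeff i)‖ ≤ (q : ℝ) ^ A) →
          eval₂ (Polynomial.eval₂RingHom (ι.comp (algebraMap (𝓞 F) F)) (Real.pi : ℂ))
            (fun a : ℕ => Complex.Gamma ((a : ℂ) / q)) P ≠ 0 := by
  obtain ⟨C, q₀, H⟩ := Pool.Agent.Q29.LR.large n d l hn A ε hε
  refine ⟨2 * C, q₀ + 3, fun q hq F _ _ hF ι => ?_⟩
  obtain ⟨S, hS, hfree, hcard⟩ := H q (by omega) F hF ι
  refine ⟨S, fun a ha => ?_, ?_, fun P h0 h1 h2 h3 h4 h5 => hfree P h0 h1 h2 ⟨h3, h4, h5⟩⟩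
  · have h1 := hS ha
    rw [Pool.Agent.Q29.LR.Num, Finset.mem_filter] at h1
    exact h1.2
  · have h1 : (q.totient : ℝ) ≤ 2 * ((Pool.Agent.Q29.LR.Num q).card : ℝ) := by
      exact_mod_cast Pool.Agent.Q29.LR.totient_le (q := q) (by omega)
    calc (q.totient : ℝ) ≤ 2 * ((Pool.Agent.Q29.LR.Num q).card : ℝ) := h1
      _ ≤ 2 * (C * (q : ℝ) ^ ε * ((S.card : ℝ) + 1) ^ n) := by gcongr
      _ = 2 * C * (q : ℝ) ^ ε * ((S.card : ℝ) + 1) ^ n := by ring

end Pool.Agent.Results.MP_274814_nt.LargeFreeSets
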