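import Mathlib
import Pool.Agent.Q29.LRSet

/-!
# Relations between `π` and values of `Γ` at rational numbers with one denominator

For every large `q`, almost all `n`-tuples of the numbers `Γ(a/q)`, `1 ≤ a < q/2`, `(a, q) = 1`,
satisfy no polynomial relation of bounded degree with coefficients in `F[π]`, `F` an arbitrary number
field of bounded degree, with coefficients of height at most a fixed power of `q`.
-/

set_option autoImplicit false

namespace Pool.Agent.Results.MP_274814_nt.OneDenominator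

open MvPolynomial NumberField

/-- the integers `a`, `1 ≤ a < q / 2`, prime to `q` -/
def numerators (q : ℕ) : Finset ℕ := (Finset.range q).filter fun a => 1 ≤ a ∧ 2 * a < q ∧ a.Coprime q

/-- the `n`-tuples of elements `a_j` of `numerators q` for which there is a polynomial `P` in `n`
variables, of degree at most `d` in each variable, with coefficients `∑ i, ξ_i c_i`, `c_i` integers of
`F` all of whose conjugates have absolute value at most `q ^ A`, such that
`|P (Γ(a_1/q), …, Γ(a_n/q))|` is at most `q ^ (-B)` times some nonzero coefficient of `P` -/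
def Exceptional (n d : ℕ) {g : ℕ} (q : ℕ) (F : Type) [Field F] [NumberField F] (ι : F →+* ℂ)
    (ξ : Fin g → ℂ) (A B : ℝ) : Set (Fin n → ℕ) :=
  {a | (∀ j, a j ∈ numerators q) ∧ ∃ P : MvPolynomial (Fin n) ℂ, (∀ j, P.degreeOf j ≤ d) ∧
    (∀ s, ∃ c : Fin g → 𝓞 F, (∀ i (φ : F →+* ℂ), ‖φ (c i)‖ ≤ (q : ℝ) ^ A) ∧
      P.coeff s = ∑ i, ξ i * ι (c i)) ∧
    ∃ s₀, P.coeff s₀ ≠ 0 ∧ ‖MvPolynomial.aeval (fun j => Complex.Gamma ((a j : ℂ) / q)) P‖ ≤
      (q : ℝ) ^ (-B) * ‖P.coeff s₀‖}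

/-- the `n`-tuples of elements `a_j` of `numerators q` for which `π` and `Γ(a_1/q), …, Γ(a_n/q)`
satisfy a nontrivial relation `P (π, Γ(a_1/q), …, Γ(a_n/q)) = 0` of degree at most `d` in each
variable with coefficients in the ring of integers of `F`, all of whose conjugates have absolute value
at most `q ^ A`; `P` is regarded as a polynomial in `n` variables over `𝓞 F [X]` -/
def Related (n d q : ℕ) (F : Type) [Field F] [NumberField F] (ι : F →+* ℂ) (A : ℝ) :
    Set (Fin n → ℕ) :=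
  {a | (∀ j, a j ∈ numerators q) ∧ ∃ P : MvPolynomial (Fin n) (Polynomial (𝓞 F)), P ≠ 0 ∧
    (∀ j, P.degreeOf j ≤ d) ∧ (∀ s, (P.coeff s).natDegree ≤ d) ∧
    (∀ s i (φ : F →+* ℂ), ‖φ ((P.coeff s).coeff i)‖ ≤ (q : ℝ) ^ A) ∧
    eval₂ (Polynomial.eval₂RingHom (ι.comp (algebraMap (𝓞 F) F)) (Real.pi : ℂ))
      (fun j => Complex.Gamma ((a j : ℂ) / q)) P = 0}

/-- **Values of `Γ` at rational numbers with one denominator.** Let `n`, `d`, `l`, `g`, `A` and
`ε > 0` be given. For all large `q`, all number fields `F` of degree at most `l`, embedded in `ℂ`, and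
all complex numbers `ξ_1, …, ξ_g`, there are at most `C q^ε φ(q)^(n-1)` exceptional `n`-tuples. In
particular there are at most `C' q^ε φ(q)^(n-1)` related `n`-tuples. -/
theorem result (n d l g : ℕ) (A ε : ℝ) (hε : 0 < ε) :
    (∃ B C : ℝ, ∃ q₀ : ℕ, ∀ q : ℕ, q₀ ≤ q → ∀ (F : Type) [Field F] [NumberField F],
      Module.finrank ℚ F ≤ l → ∀ (ι : F →+* ℂ) (ξ : Fin g → ℂ),
        ((Exceptional n d q F ι ξ A B).ncard : ℝ) ≤
          C * (q : ℝ) ^ ε * (q.totient : ℝ) ^ (n - 1)) ∧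
    ∃ C : ℝ, ∃ q₀ : ℕ, ∀ q : ℕ, q₀ ≤ q → ∀ (F : Type) [Field F] [NumberField F],
      Module.finrank ℚ F ≤ l → ∀ ι : F →+* ℂ,
        ((Related n d q F ι A).ncard : ℝ) ≤ C * (q : ℝ) ^ ε * (q.totient : ℝ) ^ (n - 1) := by
  have tot : ∀ q : ℕ, ((Pool.Agent.Q29.LR.Num q).card : ℝ) ≤ q.totient := fun q => by
    exact_mod_cast Pool.Agent.Q29.LR.card_Num q
  constructor
  · obtain ⟨B, C, q₀, hC, hq₀, H⟩ := Pool.Agent.Q29.LR.main n d l g A ε hε
    refine ⟨B, C, q₀, fun q hq F _ _ hF ι ξ => (H q hq F hF ι ξ).trans ?_⟩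
    have := tot q
    gcongr
  · obtain ⟨B, C, q₀, hC, hq₀, H⟩ := Pool.Agent.Q29.LR.main n d l (d + 1) A ε hε
    refine ⟨C, q₀, fun q hq F _ _ hF ι => ?_⟩
    have h1 := H q hq F hF ι (fun i : Fin (d + 1) => (Real.pi : ℂ) ^ (i : ℕ))
    have hfin : (Pool.Agent.Q29.LR.Exceptional n d q F ι
        (fun i : Fin (d + 1) => (Real.pi : ℂ) ^ (i : ℕ)) A B).Finite := by
      refine (Finset.finite_toSet (Fintype.piFinset fun _ : Fin n => Pool.Agent.Q29.LR.Num q)).subset ?_
      intro t ht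
      rw [Finset.mem_coe, Fintype.mem_piFinset]
      exact ht.1
    have h2 : Related n d q F ι A ⊆ Pool.Agent.Q29.LR.Exceptional n d q F ι
        (fun i : Fin (d + 1) => (Real.pi : ℂ) ^ (i : ℕ)) A B := by
      rintro a ⟨ha, P, hP0, hP1, hP2, hP3, hP⟩
      exact Pool.Agent.Q29.LR.exc_of_rel (by omega) F ι ha ⟨P, hP0, ⟨hP1, hP2, hP3⟩, hP⟩
    have h3 : ((Related n d q F ι A).ncard : ℝ) ≤ ((Pool.Agent.Q29.LR.Exceptional n d q F ι
        (fun i : Fin (d + 1) => (Real.pi : ℂ) ^ (i : ℕ)) A B).ncard : ℝ) := by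
      exact_mod_cast Set.ncard_le_ncard h2 hfin
    refine h3.trans (h1.trans ?_)
    have := tot q
    gcongr

end Pool.Agent.Results.MP_274814_nt.OneDenominator
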