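import Pool.Agent.Q23.MV.Crit
import Pool.Agent.Q23.MV.Few
import Pool.Agent.Q23.MV.Grid
import Pool.Agent.Q29.LRPi

/-!
# `Γ` at the integral combinations of several rational numbers with the same denominator

Let `k_1, …, k_r` be different nonzero vectors of `n` nonnegative integers. For every large `q` and almost all `n`-tuples
`(a_1, …, a_n)` of integers from a set `S ⊆ [0, q]` (for instance of all `a`, `1 ≤ a < q`, prime to `q`) the numbers
`Γ(1 + (k_i·a)/q)`, `k_i·a = ∑ k_ij a_j`, that is `Γ(a_1/q)`, `Γ(2 a_1/q)`, `Γ((a_1 + a_2)/q)`, `Γ((a_1 + 2 a_2)/q)`, …, and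
the numbers `ψ^(l)(1 + (k_i·a)/q)`, `l < s`, where `ψ = Γ'/Γ`, satisfy no polynomial relation of bounded degree and of
height at most `q^A` over number fields of bounded degree, with arbitrary complex constants, in particular no such
relation with `π`: the number of exceptions is at most `C q^ε |S|^(n-1)`.
-/

set_option autoImplicit false

open Set Filter Topology NumberField

namespace Pool.Agent.Results.MP_274814_nt.SeveralNumerators

/-- The numbers `ψ^(l)(1 + (k_i·a)/q)`, `l < s`, where `ψ = Γ'/Γ` (index `inl (i, l)`) and `Γ(1 + (k_i·a)/q)` (index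
`inr i`). -/
noncomputable def value {n r : ℕ} (s : ℕ) (k : Fin r → Fin n → ℕ) (q : ℕ) (a : Fin n → ℕ) : (Fin r × Fin s) ⊕ Fin r → ℂ
  | Sum.inl p => iteratedDeriv (p.2 : ℕ) Complex.digamma (1 + (∑ j, k p.1 j * a j : ℕ) / q)
  | Sum.inr i => Complex.Gamma (1 + (∑ j, k i j * a j : ℕ) / q)

/-- The `n`-tuples of elements of `S` for which the numbers `value s k q a` satisfy a nontrivial polynomial relation of
degree at most `d` in each of them, with coefficients of the form `∑ ξ_a ι(c_a)`, where the `c_a` are integers of `F` all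
of whose conjugates have absolute value at most `q ^ A`. -/
def Related {n r : ℕ} (s : ℕ) (k : Fin r → Fin n → ℕ) (q d : ℕ) {g : ℕ} (F : Type) [Field F] [NumberField F]
    (ι : F →+* ℂ) (ξ : Fin g → ℂ) (S : Finset ℕ) (A : ℝ) : Set (Fin n → ℕ) :=
  {a | (∀ j, a j ∈ S) ∧ ∃ P : MvPolynomial ((Fin r × Fin s) ⊕ Fin r) ℂ, P ≠ 0 ∧ (∀ y, P.degreeOf y ≤ d) ∧
    (∀ t, ∃ c : Fin g → 𝓞 F, (∀ a (φ : F →+* ℂ), ‖φ (c a)‖ ≤ (q : ℝ) ^ A) ∧ P.coeff t = ∑ a, ξ a * ι (c a)) ∧
    MvPolynomial.aeval (value s k q a) P = 0}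

/-- The `n`-tuples of elements of `S` for which `π` and the numbers `value s k q a` satisfy a nontrivial relation of
degree at most `d` in each of them with coefficients in the ring of integers of `F`, all of whose conjugates have
absolute value at most `q ^ A`; the polynomial `P` is regarded as a polynomial over `𝓞 F [X]`, `X = π`. -/
def RelatedPi {n r : ℕ} (s : ℕ) (k : Fin r → Fin n → ℕ) (q d : ℕ) (F : Type) [Field F] [NumberField F]
    (ι : F →+* ℂ) (S : Finset ℕ) (A : ℝ) : Set (Fin n → ℕ) :=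
  {a | (∀ j, a j ∈ S) ∧ ∃ P : MvPolynomial ((Fin r × Fin s) ⊕ Fin r) (Polynomial (𝓞 F)), P ≠ 0 ∧
    (∀ y, P.degreeOf y ≤ d) ∧ (∀ t, (P.coeff t).natDegree ≤ d) ∧
    (∀ t i (φ : F →+* ℂ), ‖φ ((P.coeff t).coeff i)‖ ≤ (q : ℝ) ^ A) ∧
    MvPolynomial.eval₂ (Polynomial.eval₂RingHom (ι.comp (algebraMap (𝓞 F) F)) (Real.pi : ℂ)) (value s k q a) P = 0}

open Pool.Agent.Q23.MV Pool.Agent.Q136.LR

/-- **`Γ` at the combinations of `n` rational numbers with denominator `q`.** Let `k_1, …, k_r` be different nonzero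
vectors of `n ≥ 1` nonnegative integers. (1) For all `s`, `m`, `g`, `d`, `A` and `ε > 0` there are `C`, `q₀` such that for
all `q ≥ q₀`, every number field `F` of degree at most `m`, every embedding `ι` of `F` in `ℂ`, all complex `ξ_1, …, ξ_g`
and every set `S` of integers in `[0, q]` at most `C q^ε |S|^(n - 1)` of the `n`-tuples of elements of `S` are related.
(2) The same for the relations with `π`. -/
theorem result : ∀ (n r : ℕ) (k : Fin r → Fin n → ℕ), 1 ≤ n → Function.Injective k → (∀ i, k i ≠ 0) →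
    (∀ (s m g d : ℕ) (A ε : ℝ), 0 < ε → ∃ (C : ℝ) (q₀ : ℕ), ∀ q : ℕ, q₀ ≤ q → ∀ (F : Type) [Field F] [NumberField F],
      Module.finrank ℚ F ≤ m → ∀ (ι : F →+* ℂ) (ξ : Fin g → ℂ) (S : Finset ℕ), (∀ a ∈ S, a ≤ q) →
        ((Related s k q d F ι ξ S A).ncard : ℝ) ≤ C * (q : ℝ) ^ ε * (S.card : ℝ) ^ (n - 1)) ∧
    ∀ (s m d : ℕ) (A ε : ℝ), 0 < ε → ∃ (C : ℝ) (q₀ : ℕ), ∀ q : ℕ, q₀ ≤ q → ∀ (F : Type) [Field F] [NumberField F],
      Module.finrank ℚ F ≤ m → ∀ (ι : F →+* ℂ) (S : Finset ℕ), (∀ a ∈ S, a ≤ q) →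
        ((RelatedPi s k q d F ι S A).ncard : ℝ) ≤ C * (q : ℝ) ^ ε * (S.card : ℝ) ^ (n - 1) := by
  classical
  intro n r k hn hinj hk
  have main : ∀ (s m g d : ℕ) (A ε : ℝ), 0 < ε → ∃ (C : ℝ) (q₀ : ℕ), ∀ q : ℕ, q₀ ≤ q →
      ∀ (F : Type) [Field F] [NumberField F],
      Module.finrank ℚ F ≤ m → ∀ (ι : F →+* ℂ) (ξ : Fin g → ℂ) (S : Finset ℕ), (∀ a ∈ S, a ≤ q) →
        ((Related s k q d F ι ξ S A).ncard : ℝ) ≤ C * (q : ℝ) ^ ε * (S.card : ℝ) ^ (n - 1) := by
    intro s m g d A ε hε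
    haveI : Nonempty (Fin n) := ⟨⟨0, hn⟩⟩
    set k' : Fin r → Fin n → ℚ := fun i j => (k i j : ℚ) with hk'
    have hk'0 : ∀ i, k' i ≠ 0 := fun i h0 => hk i (funext fun j => by
      have h3 : (k i j : ℚ) = 0 := congrFun h0 j
      have h4 : k i j = 0 := by exact_mod_cast h3
      exact h4)
    have hind : IndM k' (fun _ => (1 : ℂ)) := indM_nat k hinj hk
    let Lc : Set (Fin n → ℂ) := Set.pi univ fun _ => (fun x : ℝ => (x : ℂ)) '' Icc 0 1
    have hLc : IsCompact Lc := isCompact_univ_pi fun _ => isCompact_Icc.image Complex.continuous_ofReal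
    have hLU : Lc ⊆ DomM k' (fun _ => (1 : ℂ)) := by
      intro x hx i a h0
      choose t ht hxt using fun j => hx j (mem_univ j)
      have h1 : ∑ j, (k' i j : ℂ) * x j + 1 = (((∑ j, (k i j : ℝ) * t j + 1 : ℝ)) : ℂ) := by
        push_cast
        congr 1
        refine Finset.sum_congr rfl fun j _ => ?_
        rw [← hxt j]
        simp [hk']
      rw [h1] at h0
      have h2 := congrArg Complex.re h0
      rw [Complex.ofReal_re, Complex.neg_re, Complex.natCast_re] at h2
      have h3 : 0 ≤ ∑ j, (k i j : ℝ) * t j := Finset.sum_nonneg fun j _ => mul_nonneg (Nat.cast_nonneg _) (ht j).1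
      have h4 : (0 : ℝ) ≤ a := Nat.cast_nonneg a
      linarith
    obtain ⟨D, C, T₀, H⟩ := mvFew (U := DomM k' (fun _ => (1 : ℂ))) (f := gM s k' (fun _ => (1 : ℂ)))
      (domM_conn _ _) (domM_open _ _) (domM_ne _ hk'0 _) (gM_an s _ _) (fun p hp => by
        have h1 := gM_ind (τ := Fin 0) s k' (fun _ => (1 : ℂ)) hk'0 hind (fun i => i.elim0)
          (fun m _ => Subsingleton.elim _ _) (DomM k' (fun _ => (1 : ℂ))) (domM_open _ _) (domM_ne _ hk'0 _)
          subset_rfl (MvPolynomial.rename Sum.inl p) (fun x hx => by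
            rw [Pool.Agent.Y890.MV.evM, MvPolynomial.eval₂_rename]
            exact hp x hx)
        exact MvPolynomial.rename_injective _ Sum.inl_injective (by rw [h1, map_zero])) Lc hLc hLU m g d A ε hε
    refine ⟨|C| * D, max 1 (Nat.ceil T₀), fun q hq F _ _ hF ι ξ S hS => ?_⟩
    have hq1 : 1 ≤ q := (le_max_left _ _).trans hq
    have hq0 : (0 : ℝ) < q := by exact_mod_cast hq1
    have hqC : (q : ℂ) ≠ 0 := by exact_mod_cast hq0.ne'
    have hqF : (q : F) ≠ 0 := by
      have : q ≠ 0 := by omega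
      exact_mod_cast this
    have hqT : T₀ ≤ (q : ℝ) := (Nat.le_ceil _).trans (by exact_mod_cast (le_max_right _ _).trans hq)
    obtain ⟨Φ, h1, h2, h3⟩ := H F hF ι ξ q hqT
    set S' : Finset ℂ := S.image fun a : ℕ => (a : ℂ) / q with hS'
    have hinj' : Function.Injective fun (a : Fin n → ℕ) (j : Fin n) => ((a j : ℂ) / q) := by
      intro a b hab
      funext j
      have h5 := congrFun hab j
      simp only [div_left_inj' hqC] at h5
      exact_mod_cast h5
    have hS'c : S'.card ≤ S.card := Finset.card_image_le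
    have hsub : (fun (a : Fin n → ℕ) (j : Fin n) => ((a j : ℂ) / q)) '' (Related s k q d F ι ξ S A) ⊆
        (((Fintype.piFinset fun _ : Fin n => S').filter fun f => ∃ Q ∈ Φ, MvPolynomial.eval f Q = 0 : Finset _) :
          Set (Fin n → ℂ)) := by
      rintro _ ⟨a, ⟨ha, P, hP0, hPd, hPc, hP⟩, rfl⟩
      rw [Finset.mem_coe, Finset.mem_filter, Fintype.mem_piFinset]
      refine ⟨fun j => Finset.mem_image_of_mem (fun a : ℕ => (a : ℂ) / q) (ha j), ?_⟩
      by_contra hcon
      push Not at hcon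
      have hιx : (fun j => ι ((a j : F) / q)) = fun j => (a j : ℂ) / q := by
        funext j
        simp
      refine h3 (fun j => (a j : F) / q) ?_ (fun j => ⟨(a j : 𝓞 F), (q : 𝓞 F), ?_, fun φ => ⟨?_, ?_⟩, ?_⟩) ?_ P hP0
        hPd hPc ?_
      · rw [hιx]
        intro j _
        refine ⟨(a j : ℝ) / q, ⟨by positivity, ?_⟩, by push_cast; rfl⟩
        rw [div_le_one hq0]
        exact_mod_cast hS _ (ha j)
      · have : q ≠ 0 := by omega
        exact_mod_cast this
      · simp only [map_natCast, Complex.norm_natCast]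
        exact_mod_cast hS _ (ha j)
      · simp only [map_natCast, Complex.norm_natCast]
        exact le_rfl
      · simp only [map_natCast]
      · rw [hιx]
        exact hcon
      · rw [← hP]
        congr 2
        funext y
        rw [hιx]
        have h6 : ∀ i, ∑ j, (k' i j : ℂ) * ((a j : ℂ) / q) + 1 = 1 + ((∑ j, k i j * a j : ℕ) : ℂ) / q := by
          intro i
          rw [add_comm, Nat.cast_sum, Finset.sum_div]
          congr 1
          refine Finset.sum_congr rfl fun j _ => ?_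
          simp only [hk']
          push_cast
          ring
        rcases y with p | i
        · change psi (p.2 : ℕ) (∑ j, (k' p.1 j : ℂ) * ((a j : ℂ) / q) + 1) = iteratedDeriv _ _ _
          rw [h6]
          rfl
        · change Complex.Gamma (∑ j, (k' i j : ℂ) * ((a j : ℂ) / q) + 1) = Complex.Gamma _
          rw [h6]
    have h4 := Set.ncard_le_ncard hsub (Finset.finite_toSet _)
    rw [Set.ncard_image_of_injective _ hinj', Set.ncard_coe_finset] at h4
    have h5 := h4.trans (grid_count hn Φ D h2 S')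
    have h6 : ((Related s k q d F ι ξ S A).ncard : ℝ) ≤ Φ.card * (D * (S'.card : ℝ) ^ (n - 1)) := by
      exact_mod_cast h5
    refine h6.trans ?_
    have h7 : (Φ.card : ℝ) ≤ |C| * (q : ℝ) ^ ε := h1.trans (mul_le_mul_of_nonneg_right (le_abs_self C) (by positivity))
    have h8 : (S'.card : ℝ) ^ (n - 1) ≤ (S.card : ℝ) ^ (n - 1) :=
      pow_le_pow_left₀ (Nat.cast_nonneg _) (by exact_mod_cast hS'c) _
    calc (Φ.card : ℝ) * (D * (S'.card : ℝ) ^ (n - 1)) ≤ (|C| * (q : ℝ) ^ ε) * (D * (S.card : ℝ) ^ (n - 1)) :=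
          mul_le_mul h7 (mul_le_mul_of_nonneg_left h8 (Nat.cast_nonneg _)) (by positivity) (by positivity)
      _ = |C| * D * (q : ℝ) ^ ε * (S.card : ℝ) ^ (n - 1) := by ring
  refine ⟨main, fun s m d A ε hε => ?_⟩
  obtain ⟨C, q₀, H⟩ := main s m (d + 1) d A ε hε
  refine ⟨C, q₀, fun q hq F _ _ hF ι S hS => ?_⟩
  refine le_trans ?_ (H q hq F hF ι (fun i : Fin (d + 1) => (Real.pi : ℂ) ^ (i : ℕ)) S hS)
  rw [Nat.cast_le]
  refine Set.ncard_le_ncard ?_ ?_
  · rintro a ⟨ha, P, hP0, hPd, hPn, hPc, hP⟩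
    refine ⟨ha, ?_⟩
    set φ₀ := Polynomial.eval₂RingHom (ι.comp (algebraMap (𝓞 F) F)) (Real.pi : ℂ) with hφ₀
    obtain ⟨s₀, hs₀⟩ := MvPolynomial.ne_zero_iff.1 hP0
    refine ⟨P.map φ₀, ?_, fun y => ?_, fun t => ?_, ?_⟩
    · rw [MvPolynomial.ne_zero_iff]
      refine ⟨s₀, ?_⟩
      rw [MvPolynomial.coeff_map]
      exact Pool.Agent.Q29.LR.pi_ne ι _ hs₀
    · refine MvPolynomial.degreeOf_le_iff.2 fun t ht => ?_
      exact (MvPolynomial.degreeOf_le_iff.1 (hPd y)) t (MvPolynomial.support_map_subset φ₀ P ht)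
    · refine ⟨fun i => (P.coeff t).coeff (i : ℕ), fun i φ => hPc t _ φ, ?_⟩
      rw [MvPolynomial.coeff_map, hφ₀, Polynomial.coe_eval₂RingHom, Polynomial.eval₂_eq_sum_range'
        (ι.comp (algebraMap (𝓞 F) F)) (Nat.lt_succ_of_le (hPn t)), Finset.sum_range]
      refine Finset.sum_congr rfl fun i _ => ?_
      rw [mul_comm]
      rfl
    · rw [MvPolynomial.aeval_def, MvPolynomial.eval₂_map, ← hP]
      rfl
  · refine (Finset.finite_toSet (Fintype.piFinset fun _ : Fin n => S)).subset ?_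
    rintro y ⟨hy, -⟩
    rw [Finset.mem_coe, Fintype.mem_piFinset]
    exact hy

end Pool.Agent.Results.MP_274814_nt.SeveralNumerators
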